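import Pool.Agent.Helper96.KS.Parts

set_option autoImplicit false

open Finset

namespace KS.AL_helper77

open scoped Classical
open Inst Filter Topology

variable {K : ℕ} {Δ : ℕ} {I : Inst K}

/-! ### monotonicity of the distance and of the probability -/

lemma pr_mono {E F : (I.H → I.H) → Prop} (h : ∀ η ∈ I.Om, E η → F η) : I.pr E ≤ I.pr F := by
  unfold Inst.pr
  refine div_le_div_of_nonneg_right ?_ (Nat.cast_nonneg _)
  exact_mod_cast Finset.card_le_card fun η hη => by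
    rw [Finset.mem_filter] at hη ⊢
    exact ⟨hη.1, h η hη.1 hη.2⟩

lemma D_anti (hREV : S_REV) (hI : I.Valid Δ) {η : I.H → I.H} (hη : η ∈ I.Om) {t t1 : ℕ}
    (h : t ≤ t1) : I.D η t1 ≤ I.D η t := by
  obtain ⟨m, rfl⟩ := Nat.exists_eq_add_of_le h
  obtain ⟨-, -, -, -, -, -, h7, -, -⟩ := hREV K Δ I hI η hη
  exact ciSup_mono (Set.finite_range _).bddAbove fun x => h7 t m x

/-! ### asymptotics -/

lemma asy (M c : ℝ) (hc : 0 < c) : ∀ᶠ L : ℝ in atTop,
    3 * Real.log L + (5 * Real.log L + 1) * M ≤ c * Real.sqrt L := by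
  have h1 : (fun L : ℝ => Real.log L) =o[atTop] fun L : ℝ => L ^ (1 / 2 : ℝ) :=
    isLittleO_log_rpow_atTop (by norm_num)
  have h2 : (fun _ : ℝ => M) =o[atTop] fun L : ℝ => L ^ (1 / 2 : ℝ) := by
    refine Asymptotics.isLittleO_const_left.2 (Or.inr ?_)
    exact tendsto_norm_atTop_atTop.comp (tendsto_rpow_atTop (by norm_num))
  have h3 := ((h1.const_mul_left (3 + 5 * M)).add h2).bound hc
  filter_upwards [h3, eventually_gt_atTop 0] with L hL hL0
  rw [Real.norm_of_nonneg (Real.rpow_nonneg hL0.le _), ← Real.sqrt_eq_rpow] at hL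
  calc 3 * Real.log L + (5 * Real.log L + 1) * M = (3 + 5 * M) * Real.log L + M := by ring
    _ ≤ ‖(3 + 5 * M) * Real.log L + M‖ := Real.le_norm_self _
    _ ≤ _ := hL

lemma RR_le (hL : 1 ≤ Real.log I.N) : (RR I : ℝ) ≤ 5 * Real.log (Real.log I.N) + 1 := by
  unfold RR
  exact (Nat.ceil_lt_add_one (by have := Real.log_nonneg hL; positivity)).le

/-- all facts on the parameters -/
lemma par (hC1 : S_C1) (hI : I.Valid Δ) (ha : 0 < I.al) {s0 : ℝ} (h0 : 0 < s0)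
    (hs : s0 ≤ I.sig2) (hL : 0 < Real.log I.N) :
    0 < I.mu ∧ I.mu ≤ Real.log Δ ∧ 0 < I.nu2 ∧ 0 ≤ I.w ∧
      (I.w * I.mu) ^ 2 = I.nu2 * Real.log I.N / I.mu ∧
      Real.sqrt (s0 / Real.log Δ) * Real.sqrt (Real.log I.N) ≤ I.w * I.mu := by
  obtain ⟨-, h2, h3, h4, -⟩ := hC1 K Δ I hI ha
  have hmu : 0 < I.mu := (Real.log_pos (by norm_num)).trans_le h3
  have hnu : 0 < I.nu2 := h0.trans_le (hs.trans h2)
  have hw : 0 ≤ I.w := Real.sqrt_nonneg _
  have hw2 : (I.w * I.mu) ^ 2 = I.nu2 * Real.log I.N / I.mu := by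
    rw [mul_pow, Inst.w, Real.sq_sqrt (by positivity)]
    field_simp
  refine ⟨hmu, h4, hnu, hw, hw2, ?_⟩
  rw [← Real.sqrt_mul (by positivity)]
  refine Real.sqrt_le_iff.2 ⟨by positivity, ?_⟩
  rw [hw2, div_mul_eq_mul_div]
  have : s0 ≤ I.nu2 := hs.trans h2
  gcongr

/-- Chebyshev for the ideal chain, in the form needed for `AL1` -/
lemma est (hCHEB : S_CHEB) (hTN : S_TN) (hI : I.Valid Δ) (hal : 0 < I.al) {s0 : ℝ} (hs0 : 0 < s0)
    (hs : s0 ≤ I.sig2) {L W C ep : ℝ} (hL : 0 < L) (hW : 0 < W) (hC : 0 < C) (hep : ep < 1)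
    (hC2 : C ^ 2 = 192 * K / (1 - ep)) (hW2 : W ^ 2 = I.nu2 * L / I.mu) (hmu : 0 < I.mu)
    (hnu : 0 < I.nu2)
    (hA : 32 * K * I.mu ≤ I.al * L * C ^ 2) (n : ℕ) (hn : (n : ℝ) * I.mu ≤ L - C * W) (thr : ℝ)
    (hthr : L - C / 2 * W ≤ thr) (k : Fin K) :
    (1 + ep) / 2 ≤ I.Tn n (fun _ x => if x ≤ thr then (1 : ℝ) else 0) k 0 := by
  obtain ⟨m1, m2, m3, -, -, -⟩ := hTN K Δ I hI
  have hep2 : 0 < 1 - ep := by linarith
  have hA'pos : 0 < C / 2 * W := by positivity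
  have hA'2 : (C / 2 * W) ^ 2 = C ^ 2 * I.nu2 * L / (4 * I.mu) := by
    rw [mul_pow, hW2]
    field_simp
    ring
  have hcond : 8 * K * I.nu2 / I.al ≤ (C / 2 * W) ^ 2 := by
    rw [hA'2, div_le_div_iff₀ hal (by positivity)]
    calc 8 * K * I.nu2 * (4 * I.mu) = I.nu2 * (32 * K * I.mu) := by ring
      _ ≤ I.nu2 * (I.al * L * C ^ 2) := by gcongr
      _ = C ^ 2 * I.nu2 * L * I.al := by ring
  have hch := hCHEB K Δ I hI hal s0 hs0 hs n k (C / 2 * W) hA'pos hcond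
  have hch2 : 24 * K * I.nu2 * n / (C / 2 * W) ^ 2 ≤ (1 - ep) / 2 := by
    rw [hA'2, hC2, div_le_iff₀ (by
      have : (0 : ℝ) < K := by
        by_contra h
        have : (K : ℝ) = 0 := le_antisymm (not_lt.1 h) (Nat.cast_nonneg _)
        rw [this] at hC2
        norm_num at hC2
        exact hC.ne' hC2
      positivity)]
    have h1 : (n : ℝ) * I.mu ≤ L := by
      have : 0 ≤ C * W := by positivity
      linarith
    have h3 : (1 - ep) / 2 * (192 * K / (1 - ep) * I.nu2 * L / (4 * I.mu)) =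
        24 * K * I.nu2 * (L / I.mu) := by
      field_simp
      ring
    rw [h3]
    have h4 : (n : ℝ) ≤ L / I.mu := by rwa [le_div_iff₀ hmu]
    gcongr
  have hlin := m2 n (fun _ _ => (1 : ℝ))
    (fun _ x => if C / 2 * W ≤ |x - n * I.mu| then (1 : ℝ) else 0) 1 (-1) k 0
  have hone := m3 n 1 k 0
  have hmono := m1 n
    (fun _ x => 1 * (1 : ℝ) + (-1) * (if C / 2 * W ≤ |x - n * I.mu| then (1 : ℝ) else 0))
    (fun _ x => if x ≤ thr then (1 : ℝ) else 0) ?_ k 0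
  · rw [hlin, hone] at hmono
    linarith
  · intro _ x
    by_cases hx : x ≤ thr
    · simp only [if_pos hx]
      split_ifs <;> norm_num
    · rw [if_neg hx]
      have h5 : C / 2 * W ≤ |x - n * I.mu| := by
        push Not at hx
        refine le_trans ?_ (le_abs_self _)
        linarith
      rw [if_pos h5]
      norm_num

/-- the condition on `N` gives the asymptotic condition -/
lemma key_le {L W c M : ℝ} (_hM : 0 < M) (hL : 1 ≤ Real.log I.N) (hLe : L = Real.log I.N)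
    {s0 : ℝ} (hs0 : 0 < s0) (hc : 0 ≤ c)
    (hasy : 3 * Real.log L + (5 * Real.log L + 1) * M ≤ c * Real.sqrt (s0 / M) * Real.sqrt L)
    {lD : ℝ} (hlD : 0 < lD) (hlDM : lD ≤ M)
    (hwl : Real.sqrt (s0 / lD) * Real.sqrt L ≤ W) :
    3 * Real.log L + RR I * lD ≤ c * W := by
  have hRR := RR_le (I := I) hL
  rw [← hLe] at hRR hL
  have hlogL : 0 ≤ Real.log L := Real.log_nonneg hL
  calc 3 * Real.log L + RR I * lD
      ≤ 3 * Real.log L + (5 * Real.log L + 1) * M := by gcongr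
    _ ≤ c * Real.sqrt (s0 / M) * Real.sqrt L := hasy
    _ ≤ c * (Real.sqrt (s0 / lD) * Real.sqrt L) := by
        rw [mul_assoc]
        gcongr
    _ ≤ c * W := by gcongr

theorem al1 (hLBA : S_LBA) (hCHEB : S_CHEB) (hC1 : S_C1) (hREV : S_REV) (hTN : S_TN) : S_AL1 := by
  intro K Δ s0 ep hK hs0 hep hep1
  have hep2 : 0 < 1 - ep := by linarith
  have hKpos : (0 : ℝ) < K := by
    have : 0 < K := by omega
    exact_mod_cast this
  refine ⟨Real.sqrt (192 * K / (1 - ep)), by positivity, fun de hde => ?_⟩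
  obtain ⟨C, hC⟩ : ∃ C, C = Real.sqrt (192 * K / (1 - ep)) := ⟨_, rfl⟩
  rw [← hC]
  have hCpos : 0 < C := by rw [hC]; positivity
  have hC2 : C ^ 2 = 192 * K / (1 - ep) := by rw [hC]; exact Real.sq_sqrt (by positivity)
  obtain ⟨N1, hN1⟩ := hLBA K Δ ((1 - ep) / 2) de 3 hK (by linarith) hde (by norm_num)
  obtain ⟨M, hM⟩ : ∃ M, M = max (Real.log Δ) 1 := ⟨_, rfl⟩
  have hMpos : 0 < M := by rw [hM]; positivity
  have hc : 0 < C / 2 * Real.sqrt (s0 / M) := by positivity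
  obtain ⟨L0, hL0⟩ := eventually_atTop.1 ((asy M _ hc).and
    ((asy 1 1 one_pos).and (eventually_ge_atTop 1)))
  refine ⟨max 1 (32 * K * Real.log Δ / C ^ 2), max (max N1 (Real.exp L0)) 1, ?_⟩
  intro I hI hN hA hs t ht
  have hN' : N1 ≤ I.N := (le_max_left _ _).trans ((le_max_left _ _).trans hN)
  have hNe : Real.exp L0 ≤ I.N := (le_max_right _ _).trans ((le_max_left _ _).trans hN)
  have hLL0 : L0 ≤ Real.log I.N := by
    rw [← Real.log_exp L0]
    exact Real.log_le_log (Real.exp_pos _) hNe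
  obtain ⟨hasy, hasy1, hL1⟩ := hL0 _ hLL0
  have hLpos : 0 < Real.log I.N := by linarith
  have hal : 0 < I.al := by
    have h1 : 1 ≤ I.al * Real.log I.N := (le_max_left _ _).trans hA
    by_contra h
    push Not at h
    nlinarith
  obtain ⟨hmu, hmuD, hnu, hw, hw2, hwl⟩ := par hC1 hI hal hs0 hs hLpos
  obtain ⟨-, -, hmu2, -⟩ := hC1 K Δ I hI hal
  have hlogD : 0 < Real.log Δ := hmu.trans_le hmuD
  have hRR := RR_le (I := I) hL1
  have hlogL : 0 ≤ Real.log (Real.log I.N) := Real.log_nonneg hL1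
  have hkey := key_le (I := I) (W := I.w * I.mu) hMpos hL1 rfl hs0 (by positivity : 0 ≤ C / 2)
    hasy hlogD (by rw [hM]; exact le_max_left _ _) hwl
  have hWpos : 0 < I.w * I.mu := by
    have h1 : 0 < (I.w * I.mu) ^ 2 := by rw [hw2]; positivity
    have hW0 : 0 ≤ I.w * I.mu := by positivity
    rcases hW0.eq_or_lt with h | h
    · rw [← h] at h1; norm_num at h1
    · exact h
  have hCW : 0 < C * (I.w * I.mu) := by positivity
  have htmu : (t : ℝ) * I.mu ≤ Real.log I.N - C * (I.w * I.mu) := by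
    have := mul_le_mul_of_nonneg_right ht hmu.le
    rw [sub_mul, div_mul_cancel₀ _ hmu.ne'] at this
    linarith
  -- the time
  obtain ⟨t1, ht1⟩ : ∃ t1, t1 = max t (RR I) := ⟨_, rfl⟩
  have hn : ((t1 - RR I : ℕ) : ℝ) ≤ t := by
    have : t1 - RR I ≤ t := by
      rw [ht1]
      omega
    exact_mod_cast this
  have hRRL : (RR I : ℝ) ≤ Real.log I.N := by
    have h1 : Real.sqrt (Real.log I.N) ≤ Real.log I.N := by
      rw [Real.sqrt_le_left hLpos.le]
      nlinarith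
    linarith
  have hlog2 : (1 / 2 : ℝ) ≤ Real.log 2 := by
    have := Real.log_two_gt_d9
    linarith
  have htL : (t : ℝ) ≤ 2 * Real.log I.N := by
    have h1 : (t : ℝ) * I.mu ≤ Real.log I.N := by linarith
    have h2 : (t : ℝ) * (1 / 2) ≤ t * I.mu := by
      have : (1 / 2 : ℝ) ≤ I.mu := hlog2.trans hmu2
      gcongr
    linarith
  have ht1L : (t1 : ℝ) ≤ 3 * Real.log I.N := by
    rw [ht1, Nat.cast_max]
    exact max_le (by linarith) (by linarith)
  have hcond : 32 * K * I.mu ≤ I.al * Real.log I.N * C ^ 2 := by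
    have h1 : 32 * K * Real.log Δ / C ^ 2 ≤ I.al * Real.log I.N := (le_max_right _ _).trans hA
    rw [div_le_iff₀ (by positivity)] at h1
    refine le_trans ?_ h1
    gcongr
  have hnmu : ((t1 - RR I : ℕ) : ℝ) * I.mu ≤ Real.log I.N - C * (I.w * I.mu) := by
    refine le_trans ?_ htmu
    gcongr
  have hfin := hN1 I hI hN' t1 ((1 + ep) / 2) ht1L (by rw [ht1]; exact le_max_right _ _)
    (fun k => est hCHEB hTN hI hal hs0 hs hLpos hWpos hCpos hep1 hC2 hw2 hmu hnu hcond _ hnmu _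
      (by linarith) k)
  have hz : (1 + ep) / 2 - (1 - ep) / 2 = ep := by ring
  rw [hz] at hfin
  refine (pr_mono fun η hη h => ?_).trans hfin
  exact (D_anti hREV hI hη (by rw [ht1]; exact le_max_left t (RR I))).trans_lt h


/-! ### AL2 -/

lemma dg_log (hI : I.Valid Δ) (x : I.H) : 0 ≤ Real.log (I.dg x) ∧ Real.log (I.dg x) ≤ Real.log Δ := by
  have h3 := hI.d3 x.1
  have hD := hI.dΔ x.1
  have h2 : 1 ≤ I.dg x := by unfold Inst.dg; omega
  have h4 : I.dg x ≤ Δ := by unfold Inst.dg; omega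
  have h2' : (1 : ℝ) ≤ I.dg x := by exact_mod_cast h2
  have h4' : (I.dg x : ℝ) ≤ Δ := by exact_mod_cast h4
  exact ⟨Real.log_nonneg h2', Real.log_le_log (by linarith) h4'⟩

lemma nu2_le (hC1 : S_C1) (hI : I.Valid Δ) (hal : 0 < I.al) (hmu : 0 < I.mu)
    (hmuD : I.mu ≤ Real.log Δ) : I.nu2 ≤ 3 * (K : ℝ) ^ 2 * (Real.log Δ) ^ 2 / I.al := by
  obtain ⟨hnu, -⟩ := hC1 K Δ I hI hal
  have hNpos : (0 : ℝ) < I.N := by exact_mod_cast hI.npos
  have hK2 : (2 : ℝ) ≤ K := by exact_mod_cast hI.hK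
  have hKpos : (0 : ℝ) < K := by linarith
  have hlD : 0 < Real.log Δ := hmu.trans_le hmuD
  have hcard : (Fintype.card I.H : ℝ) = I.N := rfl
  have hal1 : I.al ≤ 1 := by
    unfold Inst.al
    rw [div_le_one hNpos]
    exact_mod_cast hI.al1
  -- sig2
  have hsig : I.sig2 ≤ (Real.log Δ) ^ 2 := by
    unfold Inst.sig2
    rw [one_div, inv_mul_le_iff₀ hNpos]
    calc ∑ x : I.H, (Real.log (I.dg x) - I.mu) ^ 2 ≤ ∑ _x : I.H, (Real.log Δ) ^ 2 := by
          refine Finset.sum_le_sum fun x _ => ?_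
          obtain ⟨h1, h2⟩ := dg_log hI x
          rw [sq_le_sq, abs_of_nonneg hlD.le, abs_le]
          constructor <;> linarith
      _ = I.N * (Real.log Δ) ^ 2 := by
          rw [Finset.sum_const, Finset.card_univ, nsmul_eq_mul, hcard]
  have hmuk : ∀ k, 0 ≤ I.muk k ∧ I.muk k ≤ K * Real.log Δ := by
    intro k
    constructor
    · unfold Inst.muk
      have : 0 ≤ ∑ x ∈ I.Hk k, Real.log (I.dg x) := Finset.sum_nonneg fun x _ => (dg_log hI x).1
      positivity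
    · have h1 : I.muk k ≤ K * I.mu := by
        unfold Inst.muk Inst.mu
        rw [← mul_assoc, mul_one_div]
        refine mul_le_mul_of_nonneg_left ?_ (by positivity)
        exact Finset.sum_le_sum_of_subset_of_nonneg (Finset.subset_univ _)
          fun x _ _ => (dg_log hI x).1
      exact h1.trans (by gcongr)
  have hmuk2 : ∀ k, (I.muk k - I.mu) ^ 2 ≤ (K * Real.log Δ) ^ 2 := by
    intro k
    obtain ⟨h1, h2⟩ := hmuk k
    have h3 : I.mu ≤ K * Real.log Δ := by nlinarith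
    rw [sq_le_sq, abs_of_nonneg (by positivity : 0 ≤ K * Real.log Δ), abs_le]
    constructor <;> linarith
  have havg : (1 / (K : ℝ)) * ∑ k, (I.muk k - I.mu) ^ 2 ≤ (K * Real.log Δ) ^ 2 := by
    rw [one_div, inv_mul_le_iff₀ hKpos]
    calc ∑ k, (I.muk k - I.mu) ^ 2 ≤ ∑ _k : Fin K, (K * Real.log Δ) ^ 2 :=
          Finset.sum_le_sum fun k _ => hmuk2 k
      _ = K * (K * Real.log Δ) ^ 2 := by simp
  have h1 : 2 * (1 - I.al) / I.al * ((1 / (K : ℝ)) * ∑ k, (I.muk k - I.mu) ^ 2)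
      ≤ 2 / I.al * (K * Real.log Δ) ^ 2 := by
    have h0 : 0 ≤ 1 - I.al := by linarith
    have h2 : 2 * (1 - I.al) / I.al ≤ 2 / I.al := by
      gcongr
      linarith
    have h3 : 0 ≤ 2 * (1 - I.al) / I.al := by positivity
    gcongr
  have h2 : (Real.log Δ) ^ 2 ≤ 1 / I.al * (K * Real.log Δ) ^ 2 := by
    have h3 : 1 ≤ 1 / I.al := by rw [le_div_iff₀ hal]; linarith
    have h4 : (Real.log Δ) ^ 2 ≤ (K * Real.log Δ) ^ 2 := by
      rw [mul_pow]
      exact le_mul_of_one_le_left (sq_nonneg _) (by nlinarith)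
    exact h4.trans (le_mul_of_one_le_left (sq_nonneg _) h3)
  rw [hnu]
  calc I.sig2 + 2 * (1 - I.al) / I.al * ((1 / (K : ℝ)) * ∑ k, (I.muk k - I.mu) ^ 2)
      ≤ 1 / I.al * (K * Real.log Δ) ^ 2 + 2 / I.al * (K * Real.log Δ) ^ 2 := by linarith
    _ = 3 * (K : ℝ) ^ 2 * (Real.log Δ) ^ 2 / I.al := by
        field_simp
        ring

lemma w_le (hC1 : S_C1) (hI : I.Valid Δ) (hal : 0 < I.al) (hmu : 1 / 2 ≤ I.mu)
    (hmuD : I.mu ≤ Real.log Δ) (hL : 0 < Real.log I.N) (hA : 1 ≤ I.al * Real.log I.N) :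
    I.w ≤ 5 * K * Real.log Δ * Real.log I.N := by
  have hmu0 : 0 < I.mu := by linarith
  have hlD : 0 < Real.log Δ := hmu0.trans_le hmuD
  have hnu := nu2_le hC1 hI hal hmu0 hmuD
  refine Real.sqrt_le_iff.2 ⟨by positivity, ?_⟩
  have h1 : I.nu2 / I.mu ^ 3 ≤ 24 * (K : ℝ) ^ 2 * (Real.log Δ) ^ 2 / I.al := by
    rw [div_le_iff₀ (by positivity)]
    have h2 : (1 / 8 : ℝ) ≤ I.mu ^ 3 := by
      have : (1 / 2 : ℝ) ^ 3 ≤ I.mu ^ 3 := by gcongr
      linarith
    calc I.nu2 ≤ 3 * (K : ℝ) ^ 2 * (Real.log Δ) ^ 2 / I.al := hnu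
      _ = 24 * (K : ℝ) ^ 2 * (Real.log Δ) ^ 2 / I.al * (1 / 8) := by ring
      _ ≤ 24 * (K : ℝ) ^ 2 * (Real.log Δ) ^ 2 / I.al * I.mu ^ 3 := by gcongr
  have h3 : 1 / I.al ≤ Real.log I.N := by
    rw [div_le_iff₀ hal]
    linarith
  calc I.nu2 / I.mu ^ 3 * Real.log I.N
      ≤ 24 * (K : ℝ) ^ 2 * (Real.log Δ) ^ 2 / I.al * Real.log I.N := by gcongr
    _ = 24 * (K : ℝ) ^ 2 * (Real.log Δ) ^ 2 * (1 / I.al) * Real.log I.N := by ring
    _ ≤ 25 * (K : ℝ) ^ 2 * (Real.log Δ) ^ 2 * Real.log I.N * Real.log I.N := by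
        gcongr
        norm_num
    _ = (5 * K * Real.log Δ * Real.log I.N) ^ 2 := by ring

set_option maxHeartbeats 2000000 in
theorem al2 (hLBA : S_LBA) (hPZ : S_PZ) (hC1 : S_C1) (hREV : S_REV) (hTN : S_TN) : S_AL2 := by
  intro K Δ s0 hK hs0
  obtain ⟨c0, hc0, de0, hde0, A0, hA0, hpz⟩ := hPZ K Δ s0 hK hs0
  refine ⟨min (de0 / 2) (1 / 2), by positivity, c0 / 4, by positivity,
    (min_le_right _ _).trans_lt (by norm_num), fun de hde => ?_⟩
  obtain ⟨M, hM⟩ : ∃ M, M = max (Real.log Δ) 1 := ⟨_, rfl⟩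
  have hMpos : 0 < M := by rw [hM]; positivity
  obtain ⟨N1, hN1⟩ := hLBA K Δ (de0 / 2) de (2 + c0 / 4 * (5 * K * M)) hK (by linarith) hde
    (by positivity)
  have hc : 0 < c0 / 4 * Real.sqrt (s0 / M) := by positivity
  have hc' : 0 < 1 / (2 * M) := by positivity
  obtain ⟨L0, hL0⟩ := eventually_atTop.1 ((asy M _ hc).and
    ((asy 2 _ hc').and (eventually_ge_atTop 1)))
  refine ⟨max 1 (2 * M * A0), max (max N1 (Real.exp L0)) 1, ?_⟩
  intro I hI hN hA hs t ht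
  have hN' : N1 ≤ I.N := (le_max_left _ _).trans ((le_max_left _ _).trans hN)
  have hNe : Real.exp L0 ≤ I.N := (le_max_right _ _).trans ((le_max_left _ _).trans hN)
  have hLL0 : L0 ≤ Real.log I.N := by
    rw [← Real.log_exp L0]
    exact Real.log_le_log (Real.exp_pos _) hNe
  obtain ⟨hasy, hasy1, hL1⟩ := hL0 _ hLL0
  have hLpos : 0 < Real.log I.N := by linarith
  have hA1 : 1 ≤ I.al * Real.log I.N := (le_max_left _ _).trans hA
  have hA2 : 2 * M * A0 ≤ I.al * Real.log I.N := (le_max_right _ _).trans hA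
  have hal : 0 < I.al := by
    by_contra h
    push Not at h
    nlinarith
  obtain ⟨hmu, hmuD, hnu, hw, hw2, hwl⟩ := par hC1 hI hal hs0 hs hLpos
  obtain ⟨-, -, hmu2, -⟩ := hC1 K Δ I hI hal
  have hlog2 : (1 / 2 : ℝ) ≤ Real.log 2 := by
    have := Real.log_two_gt_d9
    linarith
  have hmu12 : (1 / 2 : ℝ) ≤ I.mu := hlog2.trans hmu2
  have hlogD : 0 < Real.log Δ := hmu.trans_le hmuD
  have hDM : Real.log Δ ≤ M := by rw [hM]; exact le_max_left _ _
  have hRR := RR_le (I := I) hL1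
  have hlogL : 0 ≤ Real.log (Real.log I.N) := Real.log_nonneg hL1
  have hkey := key_le (I := I) (W := I.w * I.mu) hMpos hL1 rfl hs0 (by positivity : 0 ≤ c0 / 4)
    hasy hlogD hDM hwl
  have hwle := w_le hC1 hI hal hmu12 hmuD hLpos hA1
  -- the time
  obtain ⟨t1, ht1⟩ : ∃ t1, t1 = ⌊Real.log I.N / I.mu + c0 / 4 * I.w⌋₊ := ⟨_, rfl⟩
  have hle : t ≤ t1 := by rw [ht1]; exact Nat.le_floor ht
  have ht1le : (t1 : ℝ) ≤ Real.log I.N / I.mu + c0 / 4 * I.w := by
    rw [ht1]; exact Nat.floor_le (by positivity)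
  have ht1gt : Real.log I.N / I.mu + c0 / 4 * I.w < t1 + 1 := by
    rw [ht1]; exact Nat.lt_floor_add_one _
  have hsq : Real.sqrt (Real.log I.N) ≤ Real.log I.N := by
    rw [Real.sqrt_le_left hLpos.le]
    nlinarith
  have hhalf : (RR I : ℝ) + 1 ≤ Real.log I.N / (2 * I.mu) := by
    calc (RR I : ℝ) + 1 ≤ 3 * Real.log (Real.log I.N) + (5 * Real.log (Real.log I.N) + 1) * 2 := by
          linarith
      _ ≤ 1 / (2 * M) * Real.sqrt (Real.log I.N) := hasy1
      _ ≤ 1 / (2 * M) * Real.log I.N := by gcongr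
      _ = Real.log I.N / (2 * M) := by ring
      _ ≤ Real.log I.N / (2 * I.mu) := by
          gcongr
          exact hmuD.trans hDM
  have hdiv : Real.log I.N / I.mu = Real.log I.N / (2 * I.mu) + Real.log I.N / (2 * I.mu) := by
    field_simp
    ring
  have hcw : 0 ≤ c0 / 4 * I.w := by positivity
  have hRRt : RR I ≤ t1 := by
    have : (RR I : ℝ) < t1 + 1 := by
      have h0 : 0 < Real.log I.N / (2 * I.mu) := by positivity
      linarith
    have h2 : RR I < t1 + 1 := by exact_mod_cast this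
    omega
  have hncast : ((t1 - RR I : ℕ) : ℝ) = (t1 : ℝ) - RR I := Nat.cast_sub hRRt
  have hnlow : Real.log I.N / (2 * I.mu) ≤ ((t1 - RR I : ℕ) : ℝ) := by
    rw [hncast]
    linarith
  have hnup : ((t1 - RR I : ℕ) : ℝ) * I.mu ≤ Real.log I.N + c0 / 4 * (I.w * I.mu) := by
    have h1 : ((t1 - RR I : ℕ) : ℝ) ≤ Real.log I.N / I.mu + c0 / 4 * I.w := by
      rw [hncast]
      have : (0 : ℝ) ≤ RR I := Nat.cast_nonneg _
      linarith
    have h2 := mul_le_mul_of_nonneg_right h1 hmu.le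
    rw [add_mul, div_mul_cancel₀ _ hmu.ne'] at h2
    linarith
  have hA0n : A0 ≤ I.al * ((t1 - RR I : ℕ) : ℝ) := by
    calc A0 = 2 * M * A0 / (2 * M) := by field_simp
      _ ≤ I.al * Real.log I.N / (2 * M) := by gcongr
      _ ≤ I.al * Real.log I.N / (2 * I.mu) := by
          gcongr
          exact hmuD.trans hDM
      _ = I.al * (Real.log I.N / (2 * I.mu)) := by ring
      _ ≤ I.al * ((t1 - RR I : ℕ) : ℝ) := by gcongr
  have hW0 : 0 ≤ I.w * I.mu := by positivity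
  have hsqrt : I.w * I.mu / 2 ≤ Real.sqrt (I.nu2 * ((t1 - RR I : ℕ) : ℝ)) := by
    refine Real.le_sqrt_of_sq_le ?_
    calc (I.w * I.mu / 2) ^ 2 = (I.w * I.mu) ^ 2 / 4 := by ring
      _ ≤ (I.w * I.mu) ^ 2 / 2 := by
          have : 0 ≤ (I.w * I.mu) ^ 2 := sq_nonneg _
          linarith
      _ = I.nu2 * (Real.log I.N / (2 * I.mu)) := by
          rw [hw2]
          field_simp
      _ ≤ I.nu2 * ((t1 - RR I : ℕ) : ℝ) := by gcongr
  have hthr : ((t1 - RR I : ℕ) : ℝ) * I.mu - c0 * Real.sqrt (I.nu2 * ((t1 - RR I : ℕ) : ℝ)) ≤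
      Real.log I.N - 3 * Real.log (Real.log I.N) - RR I * Real.log Δ := by
    have h1 : c0 * (I.w * I.mu / 2) ≤ c0 * Real.sqrt (I.nu2 * ((t1 - RR I : ℕ) : ℝ)) := by gcongr
    linarith
  have ht1L : (t1 : ℝ) ≤ (2 + c0 / 4 * (5 * K * M)) * Real.log I.N := by
    have h1 : Real.log I.N / I.mu ≤ 2 * Real.log I.N := by
      rw [div_le_iff₀ hmu]
      nlinarith
    have h2 : I.w ≤ 5 * K * M * Real.log I.N := hwle.trans (by gcongr)
    calc (t1 : ℝ) ≤ Real.log I.N / I.mu + c0 / 4 * I.w := ht1le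
      _ ≤ 2 * Real.log I.N + c0 / 4 * (5 * K * M * Real.log I.N) := by gcongr
      _ = _ := by ring
  have hfin := hN1 I hI hN' t1 de0 ht1L hRRt (fun k => ?_)
  · refine (pr_mono fun η hη h => ?_).trans hfin
    have h1 := D_anti hREV hI hη hle
    have h2 : min (de0 / 2) (1 / 2) ≤ de0 / 2 := min_le_left _ _
    show I.D η t1 < de0 - de0 / 2
    linarith
  · have h1 := (hpz I hI hal hs (t1 - RR I) k k hA0n).2
    refine h1.trans ?_
    refine (hTN K Δ I hI).1 _ _ _ (fun l x => ?_) k 0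
    by_cases hx : x ≤ Real.log I.N - 3 * Real.log (Real.log I.N) - RR I * Real.log Δ
    · rw [if_pos hx]
      split_ifs <;> norm_num
    · rw [if_neg hx, if_neg]
      rintro ⟨-, h2⟩
      exact hx (h2.trans hthr)

end KS.AL_helper77
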